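import Pool.Agent.H513.SepHadwigerProof

set_option autoImplicit false

open Pool.Agent.H513.SepHadwiger

namespace Pool.Agent.Results.MP_75a0ab_co.DenseExceptSix

/-- **Main theorem.**  For every dimension `d ≠ 6`, the origin-symmetric convex bodies with
separable Hadwiger number `2 d` are dense in the space of all origin-symmetric convex bodies
(with the Hausdorff metric) if and only if `d ≤ 5`. -/
theorem result (d : ℕ) (hd : d ≠ 6) :
    Dense {K : SymBody d | Hsep (K.1 : Set (E d)) = 2 * (d : ℕ∞)} ↔ d ≤ 5 := by
  constructor
  · intro h
    by_contra hlt
    exact not_dense_seven d (by omega) h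
  · intro h
    exact dense_five h

end Pool.Agent.Results.MP_75a0ab_co.DenseExceptSix
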