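import Pool.Agent.H513.SepHadwigerBound

set_option autoImplicit false

open Pool.Agent.H513.SepHadwiger

namespace Pool.Agent.Results.MP_75a0ab_co.RegularBodies

/-- The separable Hadwiger number of a body. -/
noncomputable def HsepBody {d : ℕ} (K : SymBody d) : ℕ∞ := Hsep (K.1 : Set (E d))

/-- `K` is smooth or strictly convex. -/
def IsRegular {d : ℕ} (K : SymBody d) : Prop :=
  IsSmooth (K.1 : Set (E d)) ∨ StrictConvex ℝ (K.1 : Set (E d))

/-- Let `K` be an origin-symmetric convex body of dimension `d` that is smooth or strictly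
convex.  Its separable Hadwiger number is at least `2 d`, with equality if `d ≤ 5`; it is at
most `16` if `d = 6` and at most `32` if `d = 7`. -/
theorem result (d : ℕ) (K : SymBody d) (hK : IsRegular K) :
    2 * (d : ℕ∞) ≤ HsepBody K ∧ (d ≤ 5 → HsepBody K = 2 * (d : ℕ∞)) ∧
    (d = 6 → HsepBody K ≤ 16) ∧ (d = 7 → HsepBody K ≤ 32) := by
  refine ⟨le_Hsep K, fun h => Hsep_eq_of_regular h K hK, fun h => ?_, fun h => ?_⟩
  · subst h
    exact_mod_cast Hsep_le_of_regular (m := 16) (by norm_num) (by norm_num) (by norm_num) K hK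
  · subst h
    exact_mod_cast Hsep_le_of_regular (m := 32) (by norm_num) (by norm_num) (by norm_num) K hK

end Pool.Agent.Results.MP_75a0ab_co.RegularBodies
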